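import Pool.Agent.Q280.SI.Raym

/-!
# Stark's conjecture for real quadratic ray class fields, up to powers
-/

set_option autoImplicit false

namespace Pool.Agent.Results.MP_343f43_nt.StarkUnitsUpToPowers

open NumberField Pool.Agent.Q20.SI Pool.Agent.Q280.SI

/-- **Theorem.** Let `F` be a real quadratic field, `𝔪 ≠ 0, (1)` an ideal, and `H` an abelian extension of `F`
unramified outside `𝔪` with an embedding in `ℝ` (for example the ray class field of `𝔪∞₂`), with group `G`.
(1) There are `n ≥ 1` and units `ε_g` of `H` with `ε_g = exp(-2 n ζ_𝔪'(0, g))`, `h(ε_g) = ε_hg`, and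
`|φ(ε_g)| = 1` for the embeddings `φ` of `H` above `∞₂`, if and only if for every character `χ` of `G`
with a simple zero of `L_𝔪(s, χ)` at `s = 0` the defects of Stark's equality satisfy
`d_σ(χη) d_σ(χ|F₁) d_σ(χ|F₂) = d_σ(χ|F₃)`, for a quadratic character `η` with `χη` totally odd and
characters `χ|F_i` which are unramified at all finite places.
(2) Such units exist for all `H`, `𝔪`, if the rational form of Stark's conjecture holds for the cyclic
extensions of finite extensions of `F` which are unramified at all finite places, and for the abelian
L-functions of `F` which do not vanish at `s = 0` (the theorem of Siegel and Klingen). -/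
theorem result (F : Type) [Field F] [NumberField F] (hF : Module.finrank ℚ F = 2) :
    (∀ (H : Type) [Field H] [NumberField H] [Algebra F H] [IsGalois F H] (D : RayData F H),
      D.Q1 ↔ ∀ χ : (H ≃ₐ[F] H) →* ℂˣ, D.Exact χ → Rel χ) ∧
    (UnramifiedCase F → MinimalCase F →
      ∀ (H : Type) [Field H] [NumberField H] [Algebra F H] [IsGalois F H] (D : RayData F H),
        D.Q1) :=
  ⟨fun _ => fun D => (q1_iff_rank D hF).trans (rank_main D hF),
    fun hU hM _ => fun D => (q1_iff_rank D hF).2 (one_red_all hU hM (toRank D))⟩

end Pool.Agent.Results.MP_343f43_nt.StarkUnitsUpToPowers
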